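import Pool.Agent.H24.SCG3.Stmts6

/-!
Project SCG3, module EQC: over the field of two elements there is no string of rank four.
-/

namespace Pool.SCG

theorem evn_of_card_two (F : Type) [Field F] [Finite F] (h : Nat.card F = 2) : EvN F := by
  have := Fintype.ofFinite F
  refine ⟨?_, ?_⟩
  · have h1 : ((Nat.card F : ℕ) : F) = 0 := by
      rw [Nat.card_eq_fintype_card]
      exact Nat.cast_card_eq_zero F
    rw [h] at h1
    exact_mod_cast h1
  · rw [h]
    rintro ⟨r, hr⟩
    have h1 : r < 2 := by nlinarith
    interval_cases r <;> omega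

theorem eqc_thm (hQA : EQAStmt) (hQB : EQBStmt) (hMIX : EMIXStmt) : EQCStmt := by
  intro F _ _ hF a b c d ia ib ic id hac had hbd hab hbc hcd hd ha
  have hE := evn_of_card_two F hF
  have sub : ∀ s t : Set (Cor F), s ⊆ t → ∀ x, x ∈ Subgroup.closure s → x ∈ Subgroup.closure t :=
    fun s t h x hx => Subgroup.closure_mono h hx
  have ds : d.s = true := by
    by_contra h
    rw [Bool.not_eq_true] at h
    exact hd (sub _ _ (by intro x; simp only [Set.mem_insert_iff, Set.mem_singleton_iff]; tauto) _
      (hQA F hF a b d ia ib id h had hbd hab))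
  have as : a.s = true := by
    by_contra h
    rw [Bool.not_eq_true] at h
    exact ha (sub _ _ (by intro x; simp only [Set.mem_insert_iff, Set.mem_singleton_iff]; tauto) _
      (hQA F hF d c a id ic ia h had.symm hac.symm hcd.symm))
  have cs : c.s = true := by
    by_contra h
    have h1 : c.s ≠ d.s := by
      rw [ds]
      exact h
    exact ha (sub _ _ (by intro x; simp only [Set.mem_insert_iff, Set.mem_singleton_iff]; tauto) _
      (hMIX F hE a c d ia ic id as h1 hac had hcd))
  have bs : b.s = true := by
    by_contra h
    have h1 : a.s ≠ b.s := by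
      rw [as]
      exact fun h2 => h h2.symm
    exact hd (sub _ _ (by intro x; simp only [Set.mem_insert_iff, Set.mem_singleton_iff]; tauto) _
      (hMIX F hE d a b id ia ib ds h1 had.symm hbd.symm hab))
  exact hd (hQB F hF a b c d ia ib ic id as bs cs ds hac had hbd hab hbc hcd)

end Pool.SCG
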